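import Mathlib

set_option autoImplicit false

namespace Pool.Agent.H.MP_9c4169_gt

open Set

/-- Covers of `Z` by members of `𝒪`, the whole space not being a member. -/
def Cov {Z : Type} (𝒪 : Set (Set Z)) : Set (Set (Set Z)) :=
  {𝒰 | 𝒰 ⊆ 𝒪 ∧ ⋃₀ 𝒰 = univ ∧ univ ∉ 𝒰}

/-- omega-covers -/
def Om {Z : Type} (𝒪 : Set (Set Z)) : Set (Set (Set Z)) :=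
  {𝒰 | 𝒰 ∈ Cov 𝒪 ∧ ∀ F : Set Z, F.Finite → ∃ U ∈ 𝒰, F ⊆ U}

/-- gamma-covers -/
def Ga {Z : Type} (𝒪 : Set (Set Z)) : Set (Set (Set Z)) :=
  {𝒰 | 𝒰 ∈ Cov 𝒪 ∧ 𝒰.Infinite ∧ ∀ z : Z, {U ∈ 𝒰 | z ∉ U}.Finite}

/-- tau-covers -/
def Ta {Z : Type} (𝒪 : Set (Set Z)) : Set (Set (Set Z)) :=
  {𝒰 | 𝒰 ∈ Cov 𝒪 ∧ (∀ z : Z, {U ∈ 𝒰 | z ∈ U}.Infinite) ∧ ∀ x y : Z,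
    {U ∈ 𝒰 | x ∈ U ∧ y ∉ U}.Finite ∨ {U ∈ 𝒰 | y ∈ U ∧ x ∉ U}.Finite}

/-- the countable members of a collection of covers -/
def Ct {Z : Type} (𝒜 : Set (Set (Set Z))) : Set (Set (Set Z)) := {𝒰 | 𝒰 ∈ 𝒜 ∧ 𝒰.Countable}

/-- open sets -/
def Op (Z : Type) [TopologicalSpace Z] : Set (Set Z) := {U | IsOpen U}

/-- Borel sets -/
def Bo (Z : Type) [TopologicalSpace Z] : Set (Set Z) := {U | @MeasurableSet Z (borel Z) U}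

def S1 {Z : Type} (𝒜 ℬ : Set (Set (Set Z))) : Prop :=
  ∀ 𝒰 : ℕ → Set (Set Z), (∀ n, 𝒰 n ∈ 𝒜) → ∃ U : ℕ → Set Z, (∀ n, U n ∈ 𝒰 n) ∧ range U ∈ ℬ

def Sfin {Z : Type} (𝒜 ℬ : Set (Set (Set Z))) : Prop :=
  ∀ 𝒰 : ℕ → Set (Set Z), (∀ n, 𝒰 n ∈ 𝒜) →
    ∃ ℱ : ℕ → Set (Set Z), (∀ n, (ℱ n).Finite ∧ ℱ n ⊆ 𝒰 n) ∧ (⋃ n, ℱ n) ∈ ℬ

def Ufin {Z : Type} (𝒜 ℬ : Set (Set (Set Z))) : Prop :=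
  ∀ 𝒰 : ℕ → Set (Set Z), (∀ n, 𝒰 n ∈ 𝒜 ∧ ∀ ℱ ⊆ 𝒰 n, ℱ.Finite → ⋃₀ ℱ ≠ univ) →
    ∃ ℱ : ℕ → Set (Set Z), (∀ n, (ℱ n).Finite ∧ ℱ n ⊆ 𝒰 n) ∧ (range fun n => ⋃₀ ℱ n) ∈ ℬ

/-- every member of `𝒜` has a subfamily in `ℬ` -/
def Cho {Z : Type} (𝒜 ℬ : Set (Set (Set Z))) : Prop := ∀ 𝒰 ∈ 𝒜, ∃ 𝒱 ⊆ 𝒰, 𝒱 ∈ ℬ

/-- every member of `𝒜` splits into two disjoint parts, each having a subfamily in `ℬ` -/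
def Split {Z : Type} (𝒜 ℬ : Set (Set (Set Z))) : Prop :=
  ∀ 𝒰 ∈ 𝒜, ∃ 𝒱 𝒲 : Set (Set Z), 𝒱 ∪ 𝒲 = 𝒰 ∧ Disjoint 𝒱 𝒲 ∧
    (∃ 𝒱' ⊆ 𝒱, 𝒱' ∈ ℬ) ∧ ∃ 𝒲' ⊆ 𝒲, 𝒲' ∈ ℬ

end Pool.Agent.H.MP_9c4169_gt
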