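import Mathlib
import Pool.Agent.H.MP_9c4169_gt.D

set_option autoImplicit false

namespace Pool.Agent.H.MP_9c4169_gt

open Set Filter Topology

variable {Z : Type} {𝒪 : Set (Set Z)}

def Ig (u : ℕ → Set Z) : Prop := ∀ z, ∀ᶠ m in atTop, z ∈ u m

def It (u : ℕ → Set Z) : Prop := (∀ z, ∃ᶠ m in atTop, z ∈ u m) ∧
  ∀ x y, (∀ᶠ m in atTop, x ∈ u m → y ∈ u m) ∨ ∀ᶠ m in atTop, y ∈ u m → x ∈ u m

theorem S1.fin {𝒜 ℬ : Set (Set (Set Z))} (h : S1 𝒜 ℬ) : Sfin 𝒜 ℬ := fun 𝒰 h𝒰 => by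
  obtain ⟨U, h1, h2⟩ := h 𝒰 h𝒰
  exact ⟨fun n => {U n}, fun n => ⟨finite_singleton _, singleton_subset_iff.2 (h1 n)⟩,
    by rwa [iUnion_singleton_eq_range]⟩

theorem S1.ufin {𝒜 ℬ : Set (Set (Set Z))} (h : S1 𝒜 ℬ) : Ufin 𝒜 ℬ := fun 𝒰 h𝒰 => by
  obtain ⟨U, h1, h2⟩ := h 𝒰 fun n => (h𝒰 n).1
  exact ⟨fun n => {U n}, fun n => ⟨finite_singleton _, singleton_subset_iff.2 (h1 n)⟩,
    by simpa using h2⟩

theorem S1.mono {𝒜 𝒜' ℬ ℬ' : Set (Set (Set Z))} (h : S1 𝒜 ℬ) (h1 : 𝒜' ⊆ 𝒜) (h' : ℬ ⊆ ℬ') :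
    S1 𝒜' ℬ' := fun 𝒰 h𝒰 => (h 𝒰 fun n => h1 (h𝒰 n)).imp fun _ h => ⟨h.1, h' h.2⟩

theorem Sfin.mono {𝒜 𝒜' ℬ ℬ' : Set (Set (Set Z))} (h : Sfin 𝒜 ℬ) (h1 : 𝒜' ⊆ 𝒜) (h' : ℬ ⊆ ℬ') :
    Sfin 𝒜' ℬ' := fun 𝒰 h𝒰 => (h 𝒰 fun n => h1 (h𝒰 n)).imp fun _ h => ⟨h.1, h' h.2⟩

theorem ga_ta : Ga 𝒪 ⊆ Ta 𝒪 := fun _ h => ⟨h.1, fun z => (h.2.1.diff (h.2.2 z)).mono
  fun _ hU => ⟨hU.1, by_contra fun h1 => hU.2 ⟨hU.1, h1⟩⟩,
    fun _ y => Or.inl ((h.2.2 y).subset fun _ hU => ⟨hU.1, hU.2.2⟩)⟩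

theorem ga_om : Ga 𝒪 ⊆ Om 𝒪 := fun 𝒰 h => ⟨h.1, fun F hF => by
  obtain ⟨U, h1, h2⟩ := h.2.1.exists_notMem_finite (hF.biUnion fun z _ => h.2.2 z)
  refine ⟨U, h1, fun z hz => ?_⟩
  by_contra h3
  exact h2 (mem_biUnion hz ⟨h1, h3⟩)⟩

theorem finim {u : ℕ → Set Z} {p : Set Z → Prop} (h : ∀ᶠ m in atTop, ¬ p (u m)) :
    {U ∈ range u | p U}.Finite := by
  rw [← Nat.cofinite_eq_atTop, eventually_cofinite] at h
  refine (h.image u).subset ?_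
  rintro _ ⟨⟨n, rfl⟩, hn⟩
  exact ⟨n, not_not.2 hn, rfl⟩

theorem cov_of {u : ℕ → Set Z} (h1 : ∀ m, u m ∈ 𝒪) (h2 : ∀ m, u m ≠ univ)
    (h : ∀ z, ∃ m, z ∈ u m) : range u ∈ Cov 𝒪 :=
  ⟨range_subset_iff.2 h1, by rw [sUnion_range]; exact iUnion_eq_univ_iff.2 h,
    fun ⟨m, hm⟩ => h2 m hm⟩

theorem ga_of {u : ℕ → Set Z} (h1 : ∀ m, u m ∈ 𝒪) (h2 : ∀ m, u m ≠ univ) (h : Ig u) :
    range u ∈ Ga 𝒪 := by
  refine ⟨cov_of h1 h2 fun z => (h z).exists, fun hf => ?_,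
    fun z => finim ((h z).mono fun _ => not_not.2)⟩
  have h3 : ∀ U : range u, ∃ z, z ∉ U.1 := by
    rintro ⟨_, m, rfl⟩
    exact (ne_univ_iff_exists_notMem _).1 (h2 m)
  choose ψ hψ using h3
  have := hf.to_subtype
  obtain ⟨n, hn⟩ := (eventually_all.2 fun U => h (ψ U)).exists
  exact hψ ⟨_, n, rfl⟩ (hn _)

theorem ta_of {u : ℕ → Set Z} (h0 : Function.Injective u) (h1 : ∀ m, u m ∈ 𝒪)
    (h2 : ∀ m, u m ≠ univ) (h : It u) : range u ∈ Ta 𝒪 := by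
  refine ⟨cov_of h1 h2 fun z => (h.1 z).exists, fun z =>
    ((Nat.frequently_atTop_iff_infinite.1 (h.1 z)).image h0.injOn).mono ?_, fun x y =>
      (h.2 x y).imp (fun h => finim (h.mono fun _ h h' => h'.2 (h h'.1)))
        fun h => finim (h.mono fun _ h h' => h'.2 (h h'.1))⟩
  rintro _ ⟨m, hm, rfl⟩
  exact ⟨⟨m, rfl⟩, hm⟩

theorem It.fr {u : ℕ → Set Z} (h : It u) {F : Set Z} (hF : F.Finite) :
    ∃ᶠ m in atTop, F ⊆ u m := by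
  have : F.Nonempty → ∃ x ∈ F, ∀ y ∈ F, ∀ᶠ m in atTop, x ∈ u m → y ∈ u m := by
    induction F, hF using Set.Finite.induction_on with
    | empty => simp
    | @insert a F _ _ ih =>
      intro _
      rcases F.eq_empty_or_nonempty with rfl | hne
      · exact ⟨a, by simp, by simp⟩
      obtain ⟨x, h1, h2⟩ := ih hne
      rcases h.2 x a with h3 | h3
      · exact ⟨x, Or.inr h1, forall_mem_insert.2 ⟨h3, h2⟩⟩
      · exact ⟨a, Or.inl rfl, forall_mem_insert.2 ⟨by simp, fun y hy =>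
          (h3.and (h2 y hy)).mono fun _ h h' => h.2 (h.1 h')⟩⟩
  rcases F.eq_empty_or_nonempty with rfl | hne
  · exact Frequently.of_forall fun _ => empty_subset _
  obtain ⟨x, -, h2⟩ := this hne
  exact ((h.1 x).and_eventually ((eventually_all_finite hF).2 h2)).mono
    fun _ h y hy => h.2 y hy h.1

theorem om_of {u : ℕ → Set Z} (h1 : ∀ m, u m ∈ 𝒪) (h2 : ∀ m, u m ≠ univ) (h : It u) :
    range u ∈ Om 𝒪 := ⟨cov_of h1 h2 fun z => (h.1 z).exists, fun _ hF => by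
  obtain ⟨m, hm⟩ := (h.fr hF).exists
  exact ⟨_, ⟨m, rfl⟩, hm⟩⟩

theorem mdinj {ι : Type} (u : ι → Set Z) {O : Set Z} {y : ι → Z} (h : Function.Injective y)
    (hy : ∀ i, y i ∈ O) : Function.Injective fun i => (u i ∪ O) \ {y i} := fun i j hij => by
  by_contra h1
  exact (hij.le ⟨Or.inr (hy j), fun h2 => h1 (h h2).symm⟩).2 rfl

theorem evne {y : ℕ → Z} (h : Function.Injective y) (z : Z) : ∀ᶠ m in atTop, z ≠ y m := by
  rw [← Nat.cofinite_eq_atTop, eventually_cofinite]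
  exact Subsingleton.finite fun i hi j hj => h ((not_not.1 hi).symm.trans (not_not.1 hj))

theorem Ig.md {u : ℕ → Set Z} (h : Ig u) (O : Set Z) {y : ℕ → Z} (hy : Function.Injective y) :
    Ig fun m => (u m ∪ O) \ {y m} := fun z =>
  ((h z).and (evne hy z)).mono fun _ h => ⟨Or.inl h.1, h.2⟩

theorem It.md {u : ℕ → Set Z} (h : It u) (O : Set Z) {y : ℕ → Z} (hy : Function.Injective y) :
    It fun m => (u m ∪ O) \ {y m} := by
  refine ⟨fun z => ((h.1 z).and_eventually (evne hy z)).mono fun _ h => ⟨Or.inl h.1, h.2⟩,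
    fun a b => ?_⟩
  by_cases ha : a ∈ O
  · exact Or.inr ((evne hy a).mono fun _ h _ => ⟨Or.inr ha, h⟩)
  by_cases hb : b ∈ O
  · exact Or.inl ((evne hy b).mono fun _ h _ => ⟨Or.inr hb, h⟩)
  exact (h.2 a b).imp
    (fun h => (h.and (evne hy b)).mono fun _ h h' => ⟨Or.inl (h.1 (h'.1.resolve_right ha)), h.2⟩)
    fun h => (h.and (evne hy a)).mono fun _ h h' => ⟨Or.inl (h.1 (h'.1.resolve_right hb)), h.2⟩

def Nice (𝒪 : Set (Set Z)) (O : Set Z) : Prop := ∀ U ∈ 𝒪, ∀ y, (U ∪ O) \ {y} ∈ 𝒪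

theorem split {𝒜 ℬ : Set (Set (Set Z))} (hℬ : ℬ ⊆ Ta 𝒪) (h : S1 𝒜 ℬ) {I : (ℕ → Set Z) → Prop}
    (hI : ∀ u, I u → ∀ O y, Function.Injective y → I fun m => (u m ∪ O) \ {y m})
    (hA : ∀ u, Function.Injective u → (∀ m, u m ∈ 𝒪) → (∀ m, u m ≠ univ) → I u → range u ∈ 𝒜)
    {A B : Set Z} (hAB : Disjoint A B) (a1 : A.Infinite) (b1 : B.Infinite) (a2 : Nice 𝒪 A)
    (b2 : Nice 𝒪 B) (u v : ℕ → ℕ → Set Z) (u1 : ∀ n m, u n m ∈ 𝒪) (u2 : ∀ n, I (u n))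
    (v1 : ∀ n m, v n m ∈ 𝒪) (v2 : ∀ n, I (v n)) :
    (∃ g : ℕ → ℕ, ∀ x ∈ A, ∀ᶠ n in atTop, x ∈ u n (g n)) ∨
      ∃ g : ℕ → ℕ, ∀ x ∈ B, ∀ᶠ n in atTop, x ∈ v n (g n) := by
  have k1 : ∀ {O : Set Z}, O.Infinite → ∃ y : ℕ → ℕ → Z, Function.Injective (Function.uncurry y) ∧
      ∀ n m, y n m ∈ O := fun h =>
    ⟨fun n m => h.natEmbedding _ (n.pair m), fun p q hpq => Nat.pairEquiv.injective
      ((h.natEmbedding _).injective (Subtype.val_injective hpq)), fun _ _ => Subtype.prop _⟩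
  obtain ⟨a, a3, a4⟩ := k1 a1
  obtain ⟨b, b3, b4⟩ := k1 b1
  have k2 : ∀ {O : Set Z} {u : ℕ → ℕ → Set Z} {y : ℕ → ℕ → Z}, Nice 𝒪 O →
      (∀ n m, u n m ∈ 𝒪) → (∀ n, I (u n)) → Function.Injective (Function.uncurry y) →
      (∀ n m, y n m ∈ O) → ∀ n, (range fun m => (u n m ∪ O) \ {y n m}) ∈ 𝒜 :=
    fun {O u y} h1 h2 h3 h4 h5 n =>
      have h6 : Function.Injective (y n) := fun i j h =>
        (Prod.ext_iff.1 (h4 (a₁ := (n, i)) (a₂ := (n, j)) h)).2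
      hA _ (mdinj _ h6 (h5 n)) (fun m => h1 _ (h2 n m) _) (fun m h => (h.ge (mem_univ _)).2 rfl)
        (hI _ (h3 n) _ _ h6)
  let e := (Denumerable.eqv (ℕ ⊕ ℕ)).symm
  obtain ⟨U, h1, h2⟩ := h (fun k => (e k).elim (fun n => range fun m => (u n m ∪ B) \ {b n m})
    fun n => range fun m => (v n m ∪ A) \ {a n m}) fun k => by
      rcases e k with n | n
      · exact k2 b2 u1 u2 b3 b4 n
      · exact k2 a2 v1 v2 a3 a4 n
  have h3 : ∀ n, ∃ m, (u n m ∪ B) \ {b n m} = U (e.symm (.inl n)) := fun n => by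
    simpa using h1 (e.symm (.inl n))
  have h4 : ∀ n, ∃ m, (v n m ∪ A) \ {a n m} = U (e.symm (.inr n)) := fun n => by
    simpa using h1 (e.symm (.inr n))
  choose g hg using h3
  choose g' hg' using h4
  have k3 : ∀ {A B : Set Z} {u : ℕ → ℕ → Set Z} {b : ℕ → ℕ → Z} {g : ℕ → ℕ} {x y : Z},
      Disjoint A B → Function.Injective (Function.uncurry b) → (∀ n m, b n m ∈ B) →
      (∀ n, (u n (g n) ∪ B) \ {b n (g n)} ∈ range U) → x ∈ A → y ∈ B →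
      {W ∈ range U | y ∈ W ∧ x ∉ W}.Finite → ∀ᶠ n in atTop, x ∈ u n (g n) := by
    intro A B u b g x y h1 h2 h3 h4 hx hy h5
    have h6 : Function.Injective fun n => b n (g n) := fun i j h =>
      (Prod.ext_iff.1 (h2 (a₁ := (i, g i)) (a₂ := (j, g j)) h)).1
    have h7 := h5.preimage (mdinj (fun n => u n (g n)) h6 fun n => h3 n _).injOn
    have h8 := evne h6 y
    rw [← Nat.cofinite_eq_atTop] at h8 ⊢
    filter_upwards [h8, h7.compl_mem_cofinite] with n h9 h10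
    by_contra h11
    exact h10 ⟨h4 n, ⟨Or.inr hy, h9⟩, fun h => h.1.elim h11 (disjoint_left.1 h1 hx)⟩
  by_contra hc
  push Not at hc
  obtain ⟨x, hx, h5⟩ := hc.1 g
  obtain ⟨y, hy, h6⟩ := hc.2 g'
  rcases (hℬ h2).2.2 x y with h7 | h7
  · exact h6 ((k3 hAB.symm a3 a4 (fun n => ⟨_, (hg' n).symm⟩) hy hx h7).mono fun _ => not_not.2)
  · exact h5 ((k3 hAB b3 b4 (fun n => ⟨_, (hg n).symm⟩) hx hy h7).mono fun _ => not_not.2)

theorem glue {good : Set Z → Prop} (h0 : good ∅) (h1 : ∀ x, good {x})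
    (hσ : ∀ W : ℕ → Set Z, (∀ k, good (W k)) → good (⋃ k, W k)) {ρ : Z → ℝ}
    (hρ : Function.Injective ρ) (hq : ∀ q, (ρ ⁻¹' Iio q).Infinite → (ρ ⁻¹' Ioi q).Infinite →
      good (ρ ⁻¹' Iio q) ∨ good (ρ ⁻¹' Ioi q)) : good univ := by
  have k1 : ∀ S : Set (Set Z), S.Countable → (∀ W ∈ S, good W) → good (⋃₀ S) := fun S h h' => by
    obtain ⟨W, hW⟩ := (h.insert ∅).exists_eq_range (insert_nonempty _ _)
    have := hσ W fun k => forall_mem_insert.2 ⟨h0, h'⟩ _ (hW.ge ⟨k, rfl⟩)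
    rwa [← sUnion_range, ← hW, sUnion_insert, empty_union] at this
  have k2 : ∀ F : Set Z, F.Finite → good F := fun F hF => by
    have := k1 ((fun x => {x}) '' F) (hF.countable.image _) (forall_mem_image.2 fun x _ => h1 x)
    simpa using this
  let S : Set (Set Z) := {W ∈ range (fun q : ℚ => ρ ⁻¹' Iio q) ∪ range fun q : ℚ => ρ ⁻¹' Ioi q |
    good W}
  have k3 : ∀ x ∈ (⋃₀ S)ᶜ, ∀ y ∈ (⋃₀ S)ᶜ, ¬ ρ x < ρ y := fun x hx y hy h => by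
    obtain ⟨q, q1, q2⟩ := exists_rat_btwn h
    have : good (ρ ⁻¹' Iio q) ∨ good (ρ ⁻¹' Ioi q) := by
      by_contra h
      push Not at h
      exact (hq q (fun h' => h.1 (k2 _ h')) fun h' => h.2 (k2 _ h')).elim h.1 h.2
    rcases this with h | h
    · exact hx ⟨_, ⟨Or.inl ⟨q, rfl⟩, h⟩, q1⟩
    · exact hy ⟨_, ⟨Or.inr ⟨q, rfl⟩, h⟩, q2⟩
  have := k1 (insert (⋃₀ S)ᶜ S) ((((countable_range _).union (countable_range _)).mono
    (sep_subset _ _)).insert _) (forall_mem_insert.2 ⟨k2 _ (Subsingleton.finite fun x hx y hy =>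
      hρ (le_antisymm (not_lt.1 (k3 y hy x hx)) (not_lt.1 (k3 x hx y hy)))), fun _ h => h.2⟩)
  rwa [sUnion_insert, compl_union_self] at this

def Gg (𝒪 : Set (Set Z)) (W : Set Z) : Prop := ∀ u : ℕ → ℕ → Set Z, (∀ n m, u n m ∈ 𝒪) →
  (∀ n, Ig (u n)) → ∃ g : ℕ → ℕ, ∀ x ∈ W, ∀ᶠ n in atTop, x ∈ u n (g n)

def Ht (𝒪 : Set (Set Z)) (W : Set Z) : Prop := ∀ u : ℕ → Set Z, (∀ m, u m ∈ 𝒪) → It u →
  ∃ a : ℕ → ℕ, (∀ n, n ≤ a n) ∧ ∀ x ∈ W, ∀ᶠ n in atTop, x ∈ u (a n)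

theorem tend {a : ℕ → ℕ} (h : ∀ n, n ≤ a n) : Tendsto a atTop atTop :=
  tendsto_atTop_mono h tendsto_id

theorem Gg.sigma (W : ℕ → Set Z) (h : ∀ k, Gg 𝒪 (W k)) : Gg 𝒪 (⋃ k, W k) := by
  intro u u1 u2
  have k1 : ∀ k (b : ℕ → ℕ → ℕ), ∃ a : ℕ → ℕ → ℕ, (∀ n j, j ≤ a n j) ∧ ((∀ n j, j ≤ b n j) →
      ∀ x ∈ W k, ∀ᶠ n in atTop, ∀ j, x ∈ u n (b n (a n j))) := fun k b => by
    by_cases hb : ∀ n j, j ≤ b n j
    swap
    · exact ⟨fun _ j => j, fun _ _ => le_rfl, fun h => (hb h).elim⟩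
    obtain ⟨g, hg⟩ := h k (fun p m => u p.unpair.1 (b p.unpair.1 (m + p.unpair.2)))
      (fun _ _ => u1 _ _) fun p z => (tend fun m => (Nat.le_add_right m _).trans (hb _ _)).eventually
        (u2 _ z)
    refine ⟨fun n j => g (n.pair j) + j, fun _ _ => Nat.le_add_left _ _, fun _ x hx => ?_⟩
    obtain ⟨N, hN⟩ := eventually_atTop.1 (hg x hx)
    refine (eventually_ge_atTop N).mono fun n hn j => ?_
    simpa using hN (n.pair j) (hn.trans (Nat.left_le_pair n j))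
  choose a a1 a2 using k1
  let b : ℕ → ℕ → ℕ → ℕ := fun k => Nat.rec (fun _ j => j) (fun k b n j => b n (a k b n j)) k
  have b1 : ∀ k n j, j ≤ b k n j := fun k => by
    induction k with
    | zero => exact fun _ _ => le_rfl
    | succ k ih => exact fun n j => (a1 k _ n j).trans (ih n _)
  have b2 : ∀ k l, k ≤ l → ∀ n j, ∃ i, b l n j = b k n i := fun k l h => by
    induction h with
    | refl => exact fun _ j => ⟨j, rfl⟩
    | step _ ih => exact fun n j => ih n _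
  refine ⟨fun n => b n n 0, fun x hx => ?_⟩
  obtain ⟨k, hk⟩ := mem_iUnion.1 hx
  filter_upwards [a2 k (b k) (b1 k) x hk, eventually_ge_atTop (k + 1)] with n h1 h2
  obtain ⟨i, hi⟩ := b2 _ _ h2 n 0
  rw [hi]
  exact h1 i

theorem It.pi {u : ℕ → Set Z} (h : It u) {D : Set Z} (hD : D.Countable) :
    ∃ a : ℕ → ℕ, (∀ n, n ≤ a n) ∧ ∀ x, (∃ d ∈ D, ∀ᶠ m in atTop, d ∈ u m → x ∈ u m) →
      ∀ᶠ n in atTop, x ∈ u (a n) := by
  rcases D.eq_empty_or_nonempty with rfl | hne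
  · exact ⟨id, fun _ => le_rfl, by simp⟩
  obtain ⟨d, rfl⟩ := hD.exists_eq_range hne
  choose a a1 a2 using fun n => frequently_atTop.1 (h.fr ((finite_Iic n).image d)) n
  refine ⟨a, a1, ?_⟩
  rintro x ⟨_, ⟨k, rfl⟩, hk⟩
  filter_upwards [(tend a1).eventually hk, eventually_ge_atTop k] with n h1 h2
  exact h1 (a2 n ⟨k, h2, rfl⟩)

theorem Ht.sigma (W : ℕ → Set Z) (h : ∀ k, Ht 𝒪 (W k)) : Ht 𝒪 (⋃ k, W k) := by
  intro u u1 u2
  by_cases h1 : ∀ k, ∃ y, ∀ x ∈ W k, ∀ᶠ m in atTop, y ∈ u m → x ∈ u m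
  · choose y hy using h1
    obtain ⟨a, a1, a2⟩ := u2.pi (countable_range y)
    refine ⟨a, a1, fun x hx => ?_⟩
    obtain ⟨k, hk⟩ := mem_iUnion.1 hx
    exact a2 x ⟨_, ⟨k, rfl⟩, hy k x hk⟩
  · simp only [not_forall, not_exists] at h1
    obtain ⟨k, hk⟩ := h1
    obtain ⟨a, a1, a2⟩ := h k u u1 u2
    refine ⟨a, a1, fun y _ => ?_⟩
    obtain ⟨x, hx, h2⟩ := hk y
    exact (((tend a1).eventually ((u2.2 y x).resolve_left h2)).and (a2 x hx)).mono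
      fun _ h => h.1 h.2

variable {ρ : Z → ℝ}

theorem gg {𝒜 ℬ : Set (Set (Set Z))} (hℬ : ℬ ⊆ Ta 𝒪) (h : S1 𝒜 ℬ)
    (hA : ∀ u, (∀ m, u m ∈ 𝒪) → (∀ m, u m ≠ univ) → Ig u → range u ∈ 𝒜)
    (hρ : Function.Injective ρ) (hN : ∀ q, Nice 𝒪 (ρ ⁻¹' Iio q) ∧ Nice 𝒪 (ρ ⁻¹' Ioi q)) :
    Gg 𝒪 univ := by
  refine glue (fun _ _ _ => ⟨id, by simp⟩) (fun x u _ h => ?_) Gg.sigma hρ fun q h1 h2 => ?_
  · choose g hg using fun n => (h n x).exists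
    exact ⟨g, by simp [hg]⟩
  · by_contra hc
    simp only [Gg, not_or, not_forall] at hc
    obtain ⟨⟨u, u1, u2, u3⟩, v, v1, v2, v3⟩ := hc
    exact (split hℬ h (fun _ h => h.md) (fun u _ => hA u)
      ((Iio_disjoint_Ioi_same (a := q)).preimage ρ) h1 h2 (hN q).1 (hN q).2 u v u1 u2 v1 v2).elim u3 v3

theorem It.sh {u : ℕ → Set Z} (h : It u) (n : ℕ) : It fun m => u (m + n) := by
  refine ⟨fun z => frequently_atTop.2 fun k => ?_, fun x y => (h.2 x y).imp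
    (tendsto_add_atTop_nat n).eventually (tendsto_add_atTop_nat n).eventually⟩
  obtain ⟨m, h1, h2⟩ := frequently_atTop.1 (h.1 z) (k + n)
  exact ⟨m - n, by omega, by simpa [show m - n + n = m by omega]⟩

theorem ht {𝒜 ℬ : Set (Set (Set Z))} (hℬ : ℬ ⊆ Ta 𝒪) (h : S1 𝒜 ℬ)
    (hA : ∀ u, Function.Injective u → (∀ m, u m ∈ 𝒪) → (∀ m, u m ≠ univ) → It u → range u ∈ 𝒜)
    (hρ : Function.Injective ρ) (hN : ∀ q, Nice 𝒪 (ρ ⁻¹' Iio q) ∧ Nice 𝒪 (ρ ⁻¹' Ioi q)) :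
    Ht 𝒪 univ := by
  refine glue (fun _ _ _ => ⟨id, fun _ => le_rfl, by simp⟩) (fun x u _ h => ?_) Ht.sigma hρ
    fun q h1 h2 => ?_
  · choose g g1 g2 using frequently_atTop.1 (h.1 x)
    exact ⟨g, g1, by simp [g2]⟩
  · by_contra hc
    simp only [Ht, not_or, not_forall] at hc
    obtain ⟨⟨u, u1, u2, u3⟩, v, v1, v2, v3⟩ := hc
    exact (split hℬ h (fun _ h => h.md) hA ((Iio_disjoint_Ioi_same (a := q)).preimage ρ) h1 h2
      (hN q).1 (hN q).2 (fun n m => u (m + n)) (fun n m => v (m + n)) (fun _ _ => u1 _) u2.sh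
      (fun _ _ => v1 _) v2.sh).elim
      (fun ⟨g, hg⟩ => u3 ⟨fun n => g n + n, fun _ => Nat.le_add_left _ _, hg⟩)
      fun ⟨g, hg⟩ => v3 ⟨fun n => g n + n, fun _ => Nat.le_add_left _ _, hg⟩

def Sel (𝒰 : ℕ → Set (Set Z)) : Prop := ∃ U : ℕ → Set Z, (∀ n, U n ∈ 𝒰 n) ∧ Ig U

theorem Sel.ga {𝒰 : ℕ → Set (Set Z)} (h : Sel 𝒰) (h1 : ∀ n, 𝒰 n ∈ Cov 𝒪) :
    ∃ U : ℕ → Set Z, (∀ n, U n ∈ 𝒰 n) ∧ range U ∈ Ct (Ga 𝒪) := by
  obtain ⟨U, h2, h3⟩ := h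
  exact ⟨U, h2, ga_of (fun n => (h1 n).1 (h2 n)) (fun n h => (h1 n).2.2 (h ▸ h2 n)) h3,
    countable_range _⟩

theorem evof {𝒰 : Set (Set Z)} {u : ℕ → Set Z} (h0 : Function.Injective u) (h1 : ∀ m, u m ∈ 𝒰)
    {p : Set Z → Prop} (h : {U ∈ 𝒰 | p U}.Finite) : ∀ᶠ m in atTop, ¬ p (u m) := by
  rw [← Nat.cofinite_eq_atTop]
  filter_upwards [(h.preimage h0.injOn).compl_mem_cofinite] with m hm h2
  exact hm ⟨h1 m, h2⟩

theorem ga_en {𝒰 : Set (Set Z)} (h : 𝒰 ∈ Ga 𝒪) : ∃ u : ℕ → Set Z, (∀ m, u m ∈ 𝒰) ∧ Ig u :=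
  ⟨fun m => h.2.1.natEmbedding _ m, fun _ => Subtype.prop _, fun z =>
    (evof (Subtype.val_injective.comp (h.2.1.natEmbedding _).injective) (fun _ => Subtype.prop _)
      (h.2.2 z)).mono fun _ => not_not.1⟩

theorem ta_en [Nonempty Z] {𝒰 𝒱 : Set (Set Z)} (h : 𝒰 ∈ Ta 𝒪) (h1 : 𝒱 ⊆ 𝒰) (h2 : 𝒱.Countable)
    (h3 : ∀ z, {U ∈ 𝒱 | z ∈ U}.Infinite) :
    ∃ u : ℕ → Set Z, Function.Injective u ∧ (∀ m, u m ∈ 𝒰) ∧ It u := by
  have := h2.to_subtype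
  have := ((h3 (Classical.arbitrary Z)).mono (sep_subset _ _)).to_subtype
  obtain ⟨e⟩ := nonempty_denumerable 𝒱
  let u : ℕ → Set Z := fun m => (Denumerable.eqv 𝒱).symm m
  have u1 : Function.Injective u := Subtype.val_injective.comp (Equiv.injective _)
  have u2 : ∀ m, u m ∈ 𝒰 := fun m => h1 (Subtype.prop _)
  refine ⟨u, u1, u2, fun z => Nat.frequently_atTop_iff_infinite.2 (Infinite.of_image u
    ((h3 z).mono fun U hU => ⟨Denumerable.eqv 𝒱 ⟨U, hU.1⟩, ?_, ?_⟩)), fun x y =>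
      (h.2.2 x y).imp (fun h => (evof u1 u2 h).mono fun _ h h' => by_contra fun h'' => h ⟨h', h''⟩)
        fun h => (evof u1 u2 h).mono fun _ h h' => by_contra fun h'' => h ⟨h', h''⟩⟩
  · simpa [u] using hU.2
  · simp [u]

theorem ta_op [TopologicalSpace Z] [SecondCountableTopology Z] [Nonempty Z] {𝒰 : Set (Set Z)}
    (h : 𝒰 ∈ Ta (Op Z)) : ∃ u : ℕ → Set Z, Function.Injective u ∧ (∀ m, u m ∈ 𝒰) ∧ It u := by
  have k1 : ∀ s : Set (Set Z), ∃ t ⊆ s, t.Countable ∧ (t.Infinite ∨ t = s) := fun s => by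
    by_cases hs : s.Finite
    · exact ⟨s, subset_rfl, hs.countable, Or.inr rfl⟩
    · exact ⟨range fun m => (Set.Infinite.natEmbedding s hs m).1, range_subset_iff.2 fun _ =>
        Subtype.prop _, countable_range _, Or.inl (infinite_range_of_injective
          (Subtype.val_injective.comp (Set.Infinite.natEmbedding s hs).injective))⟩
  choose t t1 t2 t3 using k1
  refine ta_en (𝒱 := ⋃ B ∈ TopologicalSpace.countableBasis Z, t {U ∈ 𝒰 | B ⊆ U}) h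
    (iUnion₂_subset fun B _ => (t1 _).trans (sep_subset _ _))
    ((TopologicalSpace.countable_countableBasis Z).biUnion fun _ _ => t2 _) fun z => ?_
  by_cases h1 : ∃ B ∈ TopologicalSpace.countableBasis Z, z ∈ B ∧ (t {U ∈ 𝒰 | B ⊆ U}).Infinite
  · obtain ⟨B, b1, b2, b3⟩ := h1
    exact b3.mono fun U hU => ⟨mem_biUnion b1 hU, (t1 _ hU).2 b2⟩
  · refine (h.2.1 z).mono fun U hU => ⟨?_, hU.2⟩
    obtain ⟨B, b1, b2, b3⟩ := (TopologicalSpace.isBasis_countableBasis Z).exists_subset_of_mem_open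
      hU.2 (h.1.1 hU.1)
    exact mem_biUnion b1 (((t3 _).resolve_left fun h => h1 ⟨B, b1, b2, h⟩).ge ⟨hU.1, b3⟩)

theorem ta_ct [Nonempty Z] {𝒰 : Set (Set Z)} (h : 𝒰 ∈ Ct (Ta 𝒪)) :
    ∃ u : ℕ → Set Z, Function.Injective u ∧ (∀ m, u m ∈ 𝒰) ∧ It u :=
  ta_en h.1 subset_rfl h.2 h.1.2.1

theorem sel_ig (h : Gg 𝒪 univ) {𝒰 : ℕ → Set (Set Z)} (h1 : ∀ n, 𝒰 n ⊆ 𝒪)
    (h2 : ∀ n, ∃ u : ℕ → Set Z, (∀ m, u m ∈ 𝒰 n) ∧ Ig u) : Sel 𝒰 := by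
  choose u u1 u2 using h2
  obtain ⟨g, hg⟩ := h u (fun n m => h1 n (u1 n m)) u2
  exact ⟨_, fun n => u1 n (g n), fun z => hg z trivial⟩

theorem sel_it (h : Gg 𝒪 univ) (h' : Ht 𝒪 univ) {𝒰 : ℕ → Set (Set Z)} (h1 : ∀ n, 𝒰 n ⊆ 𝒪)
    (h2 : ∀ n, ∃ u : ℕ → Set Z, Function.Injective u ∧ (∀ m, u m ∈ 𝒰 n) ∧ It u) : Sel 𝒰 :=
  sel_ig h h1 fun n => by
    obtain ⟨u, -, u1, u2⟩ := h2 n
    obtain ⟨a, -, a2⟩ := h' u (fun m => h1 n (u1 m)) u2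
    exact ⟨_, fun m => u1 (a m), fun z => a2 z trivial⟩

theorem Ig.it {u : ℕ → Set Z} (h : Ig u) : It u :=
  ⟨fun z => (h z).frequently, fun _ y => Or.inl ((h y).mono fun _ h _ => h)⟩

section
variable [TopologicalSpace Z]

theorem nop [T1Space Z] (hρ : Continuous ρ) (q : ℝ) :
    Nice (Op Z) (ρ ⁻¹' Iio q) ∧ Nice (Op Z) (ρ ⁻¹' Ioi q) :=
  ⟨fun _ hU _ => (IsOpen.union hU (isOpen_Iio.preimage hρ)).sdiff isClosed_singleton,
    fun _ hU _ => (IsOpen.union hU (isOpen_Ioi.preimage hρ)).sdiff isClosed_singleton⟩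

theorem nbo [T1Space Z] (hρ : Continuous ρ) (q : ℝ) :
    Nice (Bo Z) (ρ ⁻¹' Iio q) ∧ Nice (Bo Z) (ρ ⁻¹' Ioi q) := by
  borelize Z
  have h : ∀ O : Set Z, IsOpen O → Nice (Bo Z) O := fun O hO U hU y =>
    ((show MeasurableSet U from hU).union hO.measurableSet).diff
      (isClosed_singleton (x := y)).measurableSet
  exact ⟨h _ (isOpen_Iio.preimage hρ), h _ (isOpen_Ioi.preimage hρ)⟩

theorem sel_om [SecondCountableTopology Z] (h : S1 (Om (Op Z)) (Ta (Op Z)))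
    (h' : Ht (Op Z) univ) {𝒰 : ℕ → Set (Set Z)} (h1 : ∀ n, 𝒰 n ∈ Om (Op Z)) : Sel 𝒰 := by
  cases isEmpty_or_nonempty Z
  · choose U h2 _ using fun n => (h1 n).2 ∅ finite_empty
    exact ⟨U, h2, fun z => isEmptyElim z⟩
  obtain ⟨W, w1, w2⟩ := h (fun n => {W | IsOpen W ∧ ∀ i ≤ n, ∃ U ∈ 𝒰 i, W ⊆ U}) fun n => by
    have h2 : ∀ F : Set Z, F.Finite → ∃ W ∈ {W | IsOpen W ∧ ∀ i ≤ n, ∃ U ∈ 𝒰 i, W ⊆ U},
        F ⊆ W := fun F hF => by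
      choose U u1 u2 using fun i => (h1 i).2 F hF
      exact ⟨⋂ i ∈ Iic n, U i, ⟨(finite_Iic n).isOpen_biInter fun i _ => (h1 i).1.1 (u1 i),
        fun i hi => ⟨U i, u1 i, biInter_subset_of_mem hi⟩⟩, subset_iInter₂ fun i _ => u2 i⟩
    refine ⟨⟨fun _ h => h.1, eq_univ_of_forall fun z => ?_, fun h => ?_⟩, h2⟩
    · obtain ⟨W, h3, h4⟩ := h2 {z} (finite_singleton _)
      exact ⟨W, h3, h4 rfl⟩
    · obtain ⟨U, h3, h4⟩ := h.2 0 (Nat.zero_le _)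
      exact (h1 0).1.2.2 (univ_subset_iff.1 h4 ▸ h3)
  obtain ⟨u, u1, u2, u3⟩ := ta_op w2
  obtain ⟨a, a1, a2⟩ := h' u (fun m => w2.1.1 (u2 m)) u3
  choose j hj using u2
  have j1 : Function.Injective j := fun m n h => u1 (by rw [← hj, h, hj])
  have j2 := j1.nat_tendsto_atTop.comp (tend a1)
  choose b b1 b2 using fun i => ((eventually_ge_atTop i).and (j2.eventually_ge_atTop i)).exists
  choose U h2 h3 using fun i => (w1 _).2 i (b2 i)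
  exact ⟨U, h2, fun z => ((tend b1).eventually (a2 z trivial)).mono fun i hi =>
    h3 i (by rwa [Function.comp, hj])⟩

theorem pw {k : ℕ} (h : ∀ 𝒰 : ℕ → Set (Set Z), (∀ n, 𝒰 n ∈ Om (Op Z)) → Sel 𝒰)
    {𝒰 : ℕ → Set (Set (Fin k → Z))} (h1 : ∀ n, 𝒰 n ∈ Om (Op (Fin k → Z))) : Sel 𝒰 := by
  obtain ⟨W, w1, w2⟩ := h (fun n => {W | IsOpen W ∧ ∃ U ∈ 𝒰 n, univ.pi (fun _ => W) ⊆ U})
    fun n => by
      have h2 : ∀ F : Set Z, F.Finite → ∃ W ∈ {W | IsOpen W ∧ ∃ U ∈ 𝒰 n,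
          univ.pi (fun _ => W) ⊆ U}, F ⊆ W := fun F hF => by
        obtain ⟨U, u1, u2⟩ := (h1 n).2 _ (Finite.pi fun _ : Fin k => hF)
        have h3 : ∀ x ∈ univ.pi fun _ : Fin k => F, ∃ V : Fin k → Set Z,
            (∀ i, IsOpen (V i) ∧ x i ∈ V i) ∧ univ.pi V ⊆ U := fun x hx =>
          isOpen_pi_iff'.1 ((h1 n).1.1 u1) x (u2 hx)
        choose! V v1 v2 using h3
        let N : Z → Set Z := fun z => ⋂ x ∈ univ.pi fun _ : Fin k => F, ⋂ i, ⋂ _ : x i = z, V x i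
        refine ⟨⋃ z ∈ F, N z, ⟨isOpen_biUnion fun z _ => (Finite.pi fun _ : Fin k =>
          hF).isOpen_biInter fun x hx => isOpen_iInter_of_finite fun i =>
            isOpen_iInter_of_finite fun _ => (v1 x hx i).1, U, u1, fun y hy => ?_⟩,
          fun z hz => mem_biUnion hz (mem_iInter₂.2 fun x hx => mem_iInter₂.2 fun i hi =>
            hi ▸ (v1 x hx i).2)⟩
        choose x x1 x2 using fun i => mem_iUnion₂.1 (hy i trivial)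
        exact v2 x (fun i _ => x1 i) fun i _ =>
          mem_iInter₂.1 (mem_iInter₂.1 (x2 i) x fun i _ => x1 i) i rfl
      refine ⟨⟨fun _ h => h.1, eq_univ_of_forall fun z => ?_, fun h => ?_⟩, h2⟩
      · obtain ⟨W, h3, h4⟩ := h2 {z} (finite_singleton _)
        exact ⟨W, h3, h4 rfl⟩
      · obtain ⟨U, h3, h4⟩ := h.2
        rw [pi_univ] at h4
        exact (h1 n).1.2.2 (univ_subset_iff.1 h4 ▸ h3)
  choose U h2 h3 using fun n => (w1 n).2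
  exact ⟨U, h2, fun z => (eventually_all.2 fun i => w2 (z i)).mono fun n hn =>
    h3 n fun i _ => hn i⟩

end

theorem Gg.pull {Y : Type} {𝒬 : Set (Set Y)} (h : Gg 𝒬 univ) (f : Y → Z)
    (hf : ∀ U ∈ 𝒪, f ⁻¹' U ∈ 𝒬) : Gg 𝒪 (range f) := fun u u1 u2 => by
  obtain ⟨g, hg⟩ := h (fun n m => f ⁻¹' u n m) (fun n m => hf _ (u1 n m)) fun n z => u2 n (f z)
  exact ⟨g, forall_mem_range.2 fun y => hg y trivial⟩

theorem Ht.pull {Y : Type} {𝒬 : Set (Set Y)} (h : Ht 𝒬 univ) (f : Y → Z)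
    (hf : ∀ U ∈ 𝒪, f ⁻¹' U ∈ 𝒬) : Ht 𝒪 (range f) := fun u u1 u2 => by
  obtain ⟨a, a1, a2⟩ := h (fun m => f ⁻¹' u m) (fun m => hf _ (u1 m))
    ⟨fun z => u2.1 (f z), fun x y => u2.2 (f x) (f y)⟩
  exact ⟨a, a1, forall_mem_range.2 fun y => a2 y trivial⟩

theorem un {ι : Type} [Countable ι] [Nonempty ι] {W : Set ℝ} {X : ι → Set ℝ} (h1 : ∀ i, X i ⊆ W)
    (h2 : W ⊆ ⋃ i, X i) {good : Set W → Prop}
    (hσ : ∀ V : ℕ → Set W, (∀ k, good (V k)) → good (⋃ k, V k))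
    (h : ∀ i, good (range (inclusion (h1 i)))) : good univ := by
  obtain ⟨e, he⟩ := exists_surjective_nat ι
  convert hσ _ fun k => h (e k)
  refine (eq_univ_of_forall fun z => ?_).symm
  obtain ⟨i, hi⟩ := mem_iUnion.1 (h2 z.2)
  obtain ⟨k, rfl⟩ := he i
  exact mem_iUnion.2 ⟨k, ⟨z, hi⟩, rfl⟩

theorem addl {P : Set ℝ → Prop} (h : ∀ (ι : Type) [Countable ι] [Nonempty ι] (W : Set ℝ)
    [Nonempty W] (X : ι → Set ℝ), (∀ i, X i ⊆ W) → W ⊆ ⋃ i, X i → (∀ i, P (X i)) → P W) :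
    (∀ X Y, P X → P Y → P (X ∪ Y)) ∧ ∀ X : ℕ → Set ℝ, (∀ n, P (X n)) → P (⋃ n, X n) := by
  refine ⟨fun X Y hX hY => ?_, fun X hX => ?_⟩
  · rcases X.eq_empty_or_nonempty with rfl | hne
    · rwa [empty_union]
    have := (hne.mono (subset_union_left (t := Y))).to_subtype
    exact h Bool _ (fun b => cond b X Y) (by simp) (by rw [← union_eq_iUnion]) (by simp [hX, hY])
  · rcases (⋃ n, X n).eq_empty_or_nonempty with h1 | hne
    · rw [h1, ← iUnion_eq_empty.1 h1 0]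
      exact hX 0
    have := hne.to_subtype
    exact h ℕ _ X (subset_iUnion X) subset_rfl hX

theorem incO {X W : Set ℝ} (h : X ⊆ W) : ∀ U ∈ Op W, inclusion h ⁻¹' U ∈ Op X := fun _ hU =>
  IsOpen.preimage (continuous_inclusion h) hU

theorem incB {X W : Set ℝ} (h : X ⊆ W) : ∀ U ∈ Bo W, inclusion h ⁻¹' U ∈ Bo X := fun _ hU =>
  (continuous_inclusion h).borel_measurable hU

variable {X : Set ℝ}

theorem ggo {𝒜 : Set (Set (Set X))} (hA : Ga (Op X) ⊆ 𝒜) (h : S1 𝒜 (Ta (Op X))) :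
    Gg (Op X) univ := gg subset_rfl h (fun _ h1 h2 h3 => hA (ga_of h1 h2 h3))
      Subtype.val_injective (nop continuous_subtype_val)

theorem ggb {𝒜 : Set (Set (Set X))} (hA : Ct (Ga (Bo X)) ⊆ 𝒜) (h : S1 𝒜 (Ct (Ta (Bo X)))) :
    Gg (Bo X) univ := gg (fun _ h => h.1) h
      (fun _ h1 h2 h3 => hA ⟨ga_of h1 h2 h3, countable_range _⟩)
      Subtype.val_injective (nbo continuous_subtype_val)

theorem hto (h : S1 (Ta (Op X)) (Ta (Op X))) : Ht (Op X) univ :=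
  ht subset_rfl h (fun _ => ta_of) Subtype.val_injective (nop continuous_subtype_val)

theorem hto' (h : S1 (Om (Op X)) (Ta (Op X))) : Ht (Op X) univ :=
  ht subset_rfl h (fun _ _ => om_of) Subtype.val_injective (nop continuous_subtype_val)

theorem htb (h : S1 (Ct (Ta (Bo X))) (Ct (Ta (Bo X)))) : Ht (Bo X) univ :=
  ht (fun _ h => h.1) h (fun _ h0 h1 h2 h3 => ⟨ta_of h0 h1 h2 h3, countable_range _⟩)
    Subtype.val_injective (nbo continuous_subtype_val)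

end Pool.Agent.H.MP_9c4169_gt
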